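import Pool.Agent.helper57.DH.SpecL

set_option autoImplicit false

open Filter Topology MeasureTheory
open scoped commutatorElement

namespace Pool.Agent.helper90.DH

open Pool.Agent.helper64.D2

theorem LEPb_mem (s : ℕ) (k : ℤ) (x : ℝ) : x ∈ cell s k ↔ ci s x = k := by
  unfold cell ci
  have h2 : (0 : ℝ) < 2 ^ s := by positivity
  rw [Set.mem_Ico, Int.floor_eq_iff, div_le_iff₀ h2, lt_div_iff₀ h2]
  constructor
  · rintro ⟨h1, h3⟩; constructor <;> linarith [mul_comm x ((2 : ℝ) ^ s)]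
  · rintro ⟨h1, h3⟩; constructor <;> linarith [mul_comm x ((2 : ℝ) ^ s)]

theorem LEPb_meas (s : ℕ) (k : ℤ) : MeasurableSet (cell s k) := by
  unfold cell; exact measurableSet_Ico

theorem LEPb_int (f : ℝ → ℝ) (hf : BM f) (m : ℝ) (hi : Integrable f) : Integrable (fun x => (x - m) * f x) := by
  obtain ⟨hm, ⟨B, hB⟩, hz⟩ := hf
  have h1 : Integrable (fun x => (1 + |m|) * |f x|) := (hi.abs).const_mul _
  refine h1.mono ?_ ?_
  · exact ((measurable_id.sub_const m).mul hm).aestronglyMeasurable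
  · refine Filter.Eventually.of_forall fun x => ?_
    by_cases hx : x ∈ Set.Icc (0 : ℝ) 1
    · have hx1 : |x - m| ≤ 1 + |m| := by
        have : |x| ≤ 1 := abs_le.2 ⟨by linarith [hx.1], hx.2⟩
        calc |x - m| ≤ |x| + |m| := abs_sub _ _
          _ ≤ 1 + |m| := by linarith
      simp only [Real.norm_eq_abs, abs_mul, abs_abs]
      have h3 : |(1 + |m|)| = 1 + |m| := abs_of_nonneg (by positivity)
      rw [h3]
      exact mul_le_mul_of_nonneg_right hx1 (abs_nonneg _)
    · rw [hz x hx]; simp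

theorem LEPb_cell (hLBM : LBM_stmt) (s : ℕ) (f g : ℝ → ℝ) (hf : BM f) (hg : BM g) (k : ℤ) :
    ∫ x in cell s k, Es s f x * g x =
      2 ^ s * (∫ t in cell s k, f t) * (∫ t in cell s k, g t) +
      12 * 2 ^ (3 * s) * (∫ t in cell s k, (t - ((k : ℝ) + 1 / 2) / 2 ^ s) * f t) * (∫ t in cell s k, (t - ((k : ℝ) + 1 / 2) / 2 ^ s) * g t) := by
  set m : ℝ := ((k : ℝ) + 1 / 2) / 2 ^ s with hm
  set a : ℝ := ∫ t in cell s k, f t with ha
  set b : ℝ := ∫ t in cell s k, (t - m) * f t with hb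
  have hgi : Integrable g := ((hLBM.2.1 1 g hg).2.2)
  have h1 : ∫ x in cell s k, Es s f x * g x = ∫ x in cell s k, (2 ^ s * a * g x + 12 * 2 ^ (3 * s) * b * ((x - m) * g x)) := by
    refine setIntegral_congr_fun (LEPb_meas s k) ?_
    intro x hx
    have hc : ci s x = k := (LEPb_mem s k x).1 hx
    simp only [Es, mid, hc]
    rw [← hm, ← ha, ← hb]
    ring
  have i1 : Integrable (fun x => 2 ^ s * a * g x) (volume.restrict (cell s k)) := (hgi.integrableOn).const_mul _
  have i2 : Integrable (fun x => 12 * 2 ^ (3 * s) * b * ((x - m) * g x)) (volume.restrict (cell s k)) := ((LEPb_int g hg m hgi).integrableOn).const_mul _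
  rw [h1, integral_add i1 i2, integral_const_mul, integral_const_mul]

theorem LEPb_adj (hLBM : LBM_stmt) (hLCE : LCE_stmt) (s : ℕ) (f g : ℝ → ℝ) (hf : BM f) (hg : BM g) :
    ∫ x, Es s f x * g x = ∫ x, f x * Es s g x := by
  have hEf := (hLBM.2.2.2.1 s f hf).1
  have hEg := (hLBM.2.2.2.1 s g hg).1
  have hF : BM (fun x => Es s f x * g x) := (hLBM.1 _ _ hEf hg).2.2
  have hG : BM (fun x => f x * Es s g x) := (hLBM.1 _ _ hf hEg).2.2
  have hk : ∀ k : ℤ, ∫ x in cell s k, Es s f x * g x = ∫ x in cell s k, f x * Es s g x := by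
    intro k
    have h2 : ∫ x in cell s k, f x * Es s g x = ∫ x in cell s k, Es s g x * f x := by
      refine setIntegral_congr_fun (LEPb_meas s k) ?_
      intro x _
      exact mul_comm _ _
    rw [h2, LEPb_cell hLBM s f g hf hg k, LEPb_cell hLBM s g f hg hf k]
    ring
  exact le_antisymm (hLCE.1 s _ _ hF hG fun k => (hk k).le) (hLCE.1 s _ _ hG hF fun k => (hk k).ge)

theorem LEPb_orth (hLBM : LBM_stmt) (hLEA : LEA_stmt) (hLCE : LCE_stmt) (s : ℕ) (f h : ℝ → ℝ) (hf : BM f) (hh : BM h) (hp : PA s h) :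
    ∫ x, Es s f x * h x = ∫ x, f x * h x := by
  rw [LEPb_adj hLBM hLCE s f h hf hh]
  congr 1
  ext x
  rw [hLEA.2.2.1 s h hp x]

theorem LEPb (hLBM : LBM_stmt) (hLEA : LEA_stmt) (hLCE : LCE_stmt) : LEP_stmt := by
  have hint : ∀ f : ℝ → ℝ, BM f → Integrable f := fun f hf => (hLBM.2.1 1 f hf).2.2
  have key : ∀ (s : ℕ) (f g : ℝ → ℝ), BM f → BM g → PA s g → nsq (fun x => f x - g x) = nsq (fun x => f x - Es s f x) + nsq (fun x => Es s f x - g x) := by
    intro s f g hf hg hp
    have hE := (hLBM.2.2.2.1 s f hf).1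
    have hPE : PA s (Es s f) := hLEA.2.1 s f
    have hh : BM (fun x => Es s f x - g x) := (hLBM.1 _ _ hE hg).2.1
    have hph : PA s (fun x => Es s f x - g x) := by
      intro k
      obtain ⟨a, b, hab⟩ := hPE k
      obtain ⟨a', b', hab'⟩ := hp k
      refine ⟨a - a', b - b', fun x hx => ?_⟩
      show Es s f x - g x = _
      rw [hab x hx, hab' x hx]; ring
    have ho := LEPb_orth hLBM hLEA hLCE s f _ hf hh hph
    have hd : BM (fun x => f x - Es s f x) := (hLBM.1 _ _ hf hE).2.1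
    have hi1 := hint _ ((hLBM.1 _ _ hd hd).2.2)
    have hi2 := hint _ ((hLBM.1 _ _ hh hh).2.2)
    have hi3 := hint _ ((hLBM.1 _ _ hf hh).2.2)
    have hi4 := hint _ ((hLBM.1 _ _ hE hh).2.2)
    unfold nsq
    have e1 : (fun x => (f x - g x) ^ 2) = fun x => ((f x - Es s f x) * (f x - Es s f x) + (Es s f x - g x) * (Es s f x - g x)) +
        2 * (f x * (Es s f x - g x) - Es s f x * (Es s f x - g x)) := by
      ext x; ring
    have e2 : (fun x => (f x - Es s f x) ^ 2) = fun x => (f x - Es s f x) * (f x - Es s f x) := by ext x; ring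
    have e3 : (fun x => (Es s f x - g x) ^ 2) = fun x => (Es s f x - g x) * (Es s f x - g x) := by ext x; ring
    simp only [e1, e2, e3]
    have q1 : ∫ x, (((f x - Es s f x) * (f x - Es s f x) + (Es s f x - g x) * (Es s f x - g x)) +
        2 * (f x * (Es s f x - g x) - Es s f x * (Es s f x - g x))) =
        (∫ x, ((f x - Es s f x) * (f x - Es s f x) + (Es s f x - g x) * (Es s f x - g x))) +
        ∫ x, 2 * (f x * (Es s f x - g x) - Es s f x * (Es s f x - g x)) :=
      integral_add (hi1.add hi2) ((hi3.sub hi4).const_mul 2)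
    have q2 : ∫ x, ((f x - Es s f x) * (f x - Es s f x) + (Es s f x - g x) * (Es s f x - g x)) =
        (∫ x, (f x - Es s f x) * (f x - Es s f x)) + ∫ x, (Es s f x - g x) * (Es s f x - g x) := integral_add hi1 hi2
    have q3 : ∫ x, 2 * (f x * (Es s f x - g x) - Es s f x * (Es s f x - g x)) = 0 := by
      rw [integral_const_mul, integral_sub hi3 hi4, ho]; ring
    rw [q1, q2, q3, add_zero]
  refine ⟨fun s f g hf hg => LEPb_adj hLBM hLCE s f g hf hg, ?_, ?_⟩
  · intro s f hf
    have hz : BM (fun _ : ℝ => (0 : ℝ)) := ⟨measurable_const, ⟨0, by simp⟩, by simp⟩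
    have hpz : PA s (fun _ : ℝ => (0 : ℝ)) := fun k => ⟨0, 0, by simp⟩
    have := key s f _ hf hz hpz
    simp only [sub_zero] at this
    rw [this]; exact add_comm _ _
  · intro s f g hf hg hp
    rw [key s f g hf hg hp]
    have : 0 ≤ nsq (fun x => Es s f x - g x) := by
      unfold nsq; exact integral_nonneg fun x => sq_nonneg _
    linarith

end Pool.Agent.helper90.DH
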