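import Pool.Agent.helper46.DH.LBM
import Pool.Agent.helper53.DH.LCE
import Pool.Agent.helper5.DH2.LCS
import Pool.Agent.helper58.DH.LCV
import Pool.Agent.helper40.DH.LDM
import Pool.Agent.helper63.DH.LEA
import Pool.Agent.helper83.DH.LEB
import Pool.Agent.helper20.DH.LEL
import Pool.Agent.helper19.DH.LEN
import Pool.Agent.helper69.DHR.LEPb
import Pool.Agent.helper88.DH.LJB
import Pool.Agent.helper57.DH.LJP
import Pool.Agent.helper5.DH2.LJV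
import Pool.Agent.helper84.DH.LLO
import Pool.Agent.helper38.DH.LLV
import Pool.Agent.helper54.DH.LOA
import Pool.Agent.helper51.DH.LOB
import Pool.Agent.helper64.DH.LSM
import Pool.Agent.helper74.DH.LUN
import Pool.Agent.helper74.DH.LYN
import Pool.Agent.helper87.DH.SWP
import Pool.Agent.helper58.DH.LIP
import Pool.Agent.helper29.DH.LJE
import Pool.Agent.helper43.DH.LSQ
import Pool.Agent.helper5.DH2.FGA
import Pool.Agent.helper58.DH.FGP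
import Pool.Agent.helper2.DH.LFV
import Pool.Agent.helper41.DH.LGB
import Pool.Agent.helper57.DH.LMX
import Pool.Agent.helper83.DH.MIX
import Pool.Agent.helper93.DH.LGA
import Pool.Agent.helper41.DH.LNF
import Pool.Agent.helper67.DH.NMX

set_option autoImplicit false

namespace Pool.Agent.helper90.DH

theorem AllLb_LBM : LBM_stmt :=
  LBM 

theorem AllLb_LCE : LCE_stmt :=
  LCE 

theorem AllLb_LCS : LCS_stmt :=
  LCS 

theorem AllLb_LCV : LCV_stmt :=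
  LCV AllLb_LBM AllLb_LCS

theorem AllLb_LDM : LDM_stmt :=
  LDM AllLb_LBM

theorem AllLb_LEA : LEA_stmt :=
  LEA 

theorem AllLb_LEB : LEB_stmt :=
  LEB 

theorem AllLb_LEL : LEL_stmt :=
  LEL 

theorem AllLb_LEN : LEN_stmt :=
  LEN AllLb_LBM AllLb_LCE

theorem AllLb_LEP : LEP_stmt :=
  LEPb AllLb_LBM AllLb_LEA AllLb_LCE

theorem AllLb_LJB : LJB_stmt :=
  LJB AllLb_LBM AllLb_LEN AllLb_LEB

theorem AllLb_LJP : LJP_stmt :=
  LJP AllLb_LEN AllLb_LCV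

theorem AllLb_LJV : LJV_stmt :=
  LJV AllLb_LBM AllLb_LEN AllLb_LEB

theorem AllLb_LLO : LLO_stmt :=
  LLO AllLb_LEA

theorem AllLb_LLV : LLV_stmt :=
  LLV AllLb_LBM AllLb_LEA AllLb_LEP AllLb_LEB

theorem AllLb_LOA : LOA_stmt :=
  LOA AllLb_LBM AllLb_LEP AllLb_LEN AllLb_LCV

theorem AllLb_LOB : LOB_stmt :=
  LOB AllLb_LOA AllLb_LBM AllLb_LCS AllLb_LEA AllLb_LEP AllLb_LCV

theorem AllLb_LSM : LSM_stmt :=
  LSM 

theorem AllLb_LUN : LUN_stmt :=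
  LUN AllLb_LDM AllLb_LEL

theorem AllLb_LYN : LYN_stmt :=
  LYN 

theorem AllLb_SWP : SWP_stmt :=
  SWP 

theorem AllLb_LIP : LIP_stmt :=
  LIP AllLb_LOA AllLb_LOB AllLb_LBM AllLb_LCS AllLb_LEP AllLb_LCV

theorem AllLb_LJE : LJE_stmt :=
  LJE AllLb_LJB AllLb_LYN AllLb_LBM AllLb_LCS AllLb_LLV

theorem AllLb_LSQ : LSQ_stmt :=
  LSQ AllLb_LOA AllLb_LOB AllLb_LYN AllLb_LSM AllLb_LBM AllLb_LCS AllLb_LEA AllLb_LEP AllLb_LLV

theorem AllLb_FGA : FGA_stmt :=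
  FGA AllLb_LIP AllLb_LYN AllLb_LSM AllLb_LBM AllLb_LCS AllLb_LLV

theorem AllLb_FGP : FGP_stmt :=
  FGP AllLb_FGA

theorem AllLb_LFV : LFV_stmt :=
  LFV AllLb_FGA AllLb_LBM AllLb_LCS AllLb_LEA AllLb_LEP AllLb_LEB AllLb_LEN AllLb_LCV

theorem AllLb_LGB : LGB_stmt :=
  LGB AllLb_LFV AllLb_LJV AllLb_FGA AllLb_LBM AllLb_LCS AllLb_LEA AllLb_LEB AllLb_LLV AllLb_LEP

theorem AllLb_LMX : LMX_stmt :=
  LMX AllLb_LSQ AllLb_FGA AllLb_LDM AllLb_LBM AllLb_LEA AllLb_LEB AllLb_LLV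

theorem AllLb_MIX : MIX_stmt :=
  MIX AllLb_FGA AllLb_LBM AllLb_LEA AllLb_LEP AllLb_LEB AllLb_LCV

theorem AllLb_LGA : LGA_stmt :=
  LGA AllLb_LMX AllLb_FGA AllLb_LJP AllLb_LJB AllLb_LJE AllLb_LBM AllLb_LEA AllLb_LEB AllLb_LLV

theorem AllLb_LNF : LNF_stmt :=
  LNF AllLb_LGA AllLb_LGB AllLb_LUN AllLb_LLO AllLb_LBM

theorem AllLb_NMX : NMX_stmt :=
  NMX AllLb_LNF

end Pool.Agent.helper90.DH
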