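import Pool.Agent.helper69.DHR.AllR
import Pool.Agent.helper69.DHR.AllLb

set_option autoImplicit false

namespace Pool.Agent.helper90.DH

theorem AllROU_ROU : ROU_stmt :=
  AllR_ROU AllLb_LBM AllLb_LCS AllLb_LEA AllLb_LEB AllLb_LEN AllLb_MIX AllLb_NMX

theorem AllROU_RLC : RLC_stmt := AllR_RLC

theorem AllROU_RST : RST_stmt := AllR_RST

end Pool.Agent.helper90.DH
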