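import Pool.Agent.helper38.DHR.RST
import Pool.Agent.helper13.DHR.rABL
import Pool.Agent.helper34.DHR.rBAS
import Pool.Agent.helper3.DHR.rBMP
import Pool.Agent.helper35.DHR.rBPH
import Pool.Agent.helper77.DHR.rBRN
import Pool.Agent.helper63.DHR.rBSE
import Pool.Agent.helper40.DHR.rCNT
import Pool.Agent.helper32.DHR.rCON
import Pool.Agent.helper64.DHR.rDN2
import Pool.Agent.helper64.DHR.rETA
import Pool.Agent.helper77.DHR.rGEO
import Pool.Agent.helper15.DHR.rHOT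
import Pool.Agent.helper87.DHR.rLOC
import Pool.Agent.helper50.DHR.rMON
import Pool.Agent.helper34.DHR.rMXD
import Pool.Agent.helper36.DHR.rMXE
import Pool.Agent.helper79.DHR.rMXT
import Pool.Agent.helper2.DHR.rNIM
import Pool.Agent.helper99.DHR.rNRM
import Pool.Agent.helper44.DHR.rPEL
import Pool.Agent.helper28.DHR.rPLF
import Pool.Agent.helper65.DHR.rREE
import Pool.Agent.helper18.DHR.rRIV
import Pool.Agent.helper39.DHR.rSIG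
import Pool.Agent.helper18.DHR.rSLV
import Pool.Agent.helper40.DHR.rTRF
import Pool.Agent.helper83.DHR.rUSE
import Pool.Agent.helper29.DHR.rVAR
import Pool.Agent.helper63.DHR.rWTB
import Pool.Agent.helper71.DHR.rWTC
import Pool.Agent.helper97.DHR.rWTV
import Pool.Agent.helper92.DHR.RLC
import Pool.Agent.helper26.DHR.rGEX
import Pool.Agent.helper31.DHR.rLD1
import Pool.Agent.helper33.DHR.rLD2
import Pool.Agent.helper65.DHR.rLD3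
import Pool.Agent.helper87.DHR.rLD5
import Pool.Agent.helper20.DHR.rMXI
import Pool.Agent.helper38.DHR.rMXS
import Pool.Agent.helper20.DHR.rREF
import Pool.Agent.helper21.DHR.rSLF
import Pool.Agent.helper44.DHR.rTDN
import Pool.Agent.helper89.DHR.rWTU
import Pool.Agent.helper31.DHR.rDNA
import Pool.Agent.helper5.DHR.rLD4
import Pool.Agent.helper19.DHR.rLOD
import Pool.Agent.helper39.DHR.rRHY
import Pool.Agent.helper93.DHR.rDN3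
import Pool.Agent.helper84.DHR.rDN4
import Pool.Agent.helper19.DHR.rDNS
import Pool.Agent.helper65.DHR.rFIX
import Pool.Agent.helper93.DHR.rEXT
import Pool.Agent.helper16.DHR.ROU

set_option autoImplicit false

namespace Pool.Agent.helper90.DH

theorem AllR_RST : RST_stmt :=
  RST 

theorem AllR_rABL : rABL_stmt :=
  rABL 

theorem AllR_rBAS : rBAS_stmt :=
  rBAS 

theorem AllR_rBMP : rBMP_stmt :=
  rBMP 

theorem AllR_rBPH : rBPH_stmt :=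
  rBPH AllR_rBMP

theorem AllR_rBRN : rBRN_stmt :=
  rBRN AllR_rBAS

theorem AllR_rBSE : rBSE_stmt :=
  rBSE 

theorem AllR_rCNT : rCNT_stmt :=
  rCNT 

theorem AllR_rCON : rCON_stmt :=
  rCON 

theorem AllR_rDN2 : rDN2_stmt :=
  rDN2 AllR_rCNT

theorem AllR_rETA : rETA_stmt :=
  rETA AllR_rBPH

theorem AllR_rGEO : rGEO_stmt :=
  rGEO AllR_rBAS

theorem AllR_rHOT : rHOT_stmt :=
  rHOT AllR_rBAS

theorem AllR_rLOC : rLOC_stmt :=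
  rLOC 

theorem AllR_rMON : rMON_stmt :=
  rMON 

theorem AllR_rMXD : rMXD_stmt :=
  rMXD AllR_rBAS

theorem AllR_rMXE (hLBM : LBM_stmt) (hLCS : LCS_stmt) : rMXE_stmt :=
  rMXE hLBM hLCS

theorem AllR_rMXT : rMXT_stmt :=
  rMXT AllR_rGEO

theorem AllR_rNIM : rNIM_stmt :=
  rNIM 

theorem AllR_rNRM : rNRM_stmt :=
  rNRM AllR_rETA AllR_rHOT

theorem AllR_rPEL : rPEL_stmt :=
  rPEL 

theorem AllR_rPLF (hLBM : LBM_stmt) (hLEA : LEA_stmt) (hLEB : LEB_stmt) (hLEN : LEN_stmt) : rPLF_stmt :=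
  rPLF hLBM hLEA hLEB hLEN

theorem AllR_rREE : rREE_stmt :=
  rREE AllR_rGEO

theorem AllR_rRIV : rRIV_stmt :=
  rRIV AllR_rBAS AllR_rMON

theorem AllR_rSIG : rSIG_stmt :=
  rSIG 

theorem AllR_rSLV : rSLV_stmt :=
  rSLV 

theorem AllR_rTRF : rTRF_stmt :=
  rTRF AllR_rGEO

theorem AllR_rUSE : rUSE_stmt :=
  rUSE AllR_rBAS AllR_rBRN

theorem AllR_rVAR : rVAR_stmt :=
  rVAR AllR_rBAS AllR_rETA AllR_rSIG AllR_rHOT

theorem AllR_rWTB : rWTB_stmt :=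
  rWTB AllR_rETA AllR_rNRM

theorem AllR_rWTC : rWTC_stmt :=
  rWTC AllR_rBAS

theorem AllR_rWTV : rWTV_stmt :=
  rWTV AllR_rBAS AllR_rBRN AllR_rVAR AllR_rNRM AllR_rWTC AllR_rWTB AllR_rETA

theorem AllR_RLC : RLC_stmt :=
  RLC AllR_rLOC

theorem AllR_rGEX : rGEX_stmt :=
  rGEX AllR_rBAS AllR_rREE AllR_rPEL

theorem AllR_rLD1 : rLD1_stmt :=
  rLD1 AllR_rUSE AllR_rWTC

theorem AllR_rLD2 : rLD2_stmt :=
  rLD2 AllR_rETA AllR_rSIG AllR_rHOT AllR_rBRN AllR_rABL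

theorem AllR_rLD3 : rLD3_stmt :=
  rLD3 AllR_rBAS AllR_rBRN AllR_rVAR AllR_rNRM AllR_rETA AllR_rABL

theorem AllR_rLD5 : rLD5_stmt :=
  rLD5 AllR_rBAS AllR_rETA AllR_rVAR AllR_rBRN AllR_rNRM AllR_rABL

theorem AllR_rMXI (hLBM : LBM_stmt) (hLCS : LCS_stmt) (hMIX : MIX_stmt) : rMXI_stmt :=
  rMXI hMIX AllR_rNIM (AllR_rMXE hLBM hLCS) AllR_rMXD AllR_rCON

theorem AllR_rMXS : rMXS_stmt :=
  rMXS AllR_rGEO AllR_rREE

theorem AllR_rREF : rREF_stmt :=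
  rREF AllR_rBAS AllR_rGEO AllR_rTRF

theorem AllR_rSLF (hLBM : LBM_stmt) (hLEA : LEA_stmt) (hLEB : LEB_stmt) (hLEN : LEN_stmt) : rSLF_stmt :=
  rSLF AllR_rSLV (AllR_rPLF hLBM hLEA hLEB hLEN)

theorem AllR_rTDN (hLBM : LBM_stmt) (hLEA : LEA_stmt) (hLEB : LEB_stmt) (hLEN : LEN_stmt) (hNMX : NMX_stmt) : rTDN_stmt :=
  rTDN hNMX AllR_rBAS (AllR_rPLF hLBM hLEA hLEB hLEN) (AllR_rSLF hLBM hLEA hLEB hLEN)

theorem AllR_rWTU : rWTU_stmt :=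
  rWTU AllR_rWTB AllR_rWTV AllR_rABL

theorem AllR_rDNA : rDNA_stmt :=
  rDNA AllR_rBAS AllR_rGEO AllR_rCNT AllR_rMXT AllR_rMXS

theorem AllR_rLD4 : rLD4_stmt :=
  rLD4 AllR_rBAS AllR_rBRN AllR_rHOT AllR_rLD3 AllR_rLD5

theorem AllR_rLOD : rLOD_stmt :=
  rLOD AllR_rBAS AllR_rBRN AllR_rETA AllR_rHOT AllR_rWTC AllR_rLD1 AllR_rLD2 AllR_rLD4

theorem AllR_rRHY (hLBM : LBM_stmt) (hLCS : LCS_stmt) (hLEA : LEA_stmt) (hLEB : LEB_stmt) (hLEN : LEN_stmt) (hMIX : MIX_stmt) (hNMX : NMX_stmt) : rRHY_stmt :=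
  rRHY AllR_rNIM (AllR_rMXI hLBM hLCS hMIX) (AllR_rTDN hLBM hLEA hLEB hLEN hNMX)

theorem AllR_rDN3 : rDN3_stmt :=
  rDN3 AllR_rBAS AllR_rDNA AllR_rMXT

theorem AllR_rDN4 : rDN4_stmt :=
  rDN4 AllR_rBAS AllR_rGEO AllR_rDNA AllR_rMXS

theorem AllR_rDNS : rDNS_stmt :=
  rDNS AllR_rBAS AllR_rREF AllR_rDN2 AllR_rDN3 AllR_rDN4

theorem AllR_rFIX : rFIX_stmt :=
  rFIX AllR_rMON AllR_rRIV AllR_rBSE AllR_rDNS

theorem AllR_rEXT : rEXT_stmt :=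
  rEXT AllR_rLOC AllR_rFIX AllR_rGEX

theorem AllR_ROU (hLBM : LBM_stmt) (hLCS : LCS_stmt) (hLEA : LEA_stmt) (hLEB : LEB_stmt) (hLEN : LEN_stmt) (hMIX : MIX_stmt) (hNMX : NMX_stmt) : ROU_stmt :=
  ROU (AllR_rRHY hLBM hLCS hLEA hLEB hLEN hMIX hNMX) AllR_rEXT AllR_rWTB AllR_rWTU AllR_rLOD (AllR_rSLF hLBM hLEA hLEB hLEN) (AllR_rPLF hLBM hLEA hLEB hLEN) AllR_rBAS

end Pool.Agent.helper90.DH
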